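import Pool.Agent.Helper29.OT.St

set_option autoImplicit false

namespace Pool.Agent.Helper28.OT

open Finset Pool.Agent.Helper14.FEM Pool.Agent.Helper3.EMK Pool.Agent.Helper29.TK
  Pool.Agent.Helper29.OT

private theorem NA_step (m : ℕ) (hm : 1 ≤ m) :
    ((m : ℝ) / (m + 1)) ^ (m + 1) ≤ (((m : ℝ) + 1) / (m + 2)) ^ (m + 2) := by
  have hm0 : (0 : ℝ) < m := by exact_mod_cast hm
  have hb := one_add_mul_le_pow (a := 1 / ((m : ℝ) * (m + 2)))
    (by have : (0 : ℝ) ≤ 1 / ((m : ℝ) * (m + 2)) := by positivity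
        linarith) (m + 2)
  have e1 : 1 + ((m + 2 : ℕ) : ℝ) * (1 / ((m : ℝ) * (m + 2))) = ((m : ℝ) + 1) / m := by
    push_cast
    field_simp
  rw [e1] at hb
  have e2 : ((m : ℝ) + 1) / (m + 2) = ((m : ℝ) / (m + 1)) * (1 + 1 / ((m : ℝ) * (m + 2))) := by
    field_simp
    ring
  rw [e2, mul_pow]
  have h0 : (0 : ℝ) ≤ ((m : ℝ) / (m + 1)) ^ (m + 2) := by positivity
  calc ((m : ℝ) / (m + 1)) ^ (m + 1)
      = ((m : ℝ) / (m + 1)) ^ (m + 2) * (((m : ℝ) + 1) / m) := by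
        rw [pow_succ ((m : ℝ) / (m + 1)) (m + 1)]
        field_simp
    _ ≤ _ := mul_le_mul_of_nonneg_left hb h0

private theorem NA_one (m : ℕ) (hm : 1 ≤ m) : (1 / 4 : ℝ) ≤ ((m : ℝ) / (m + 1)) ^ (m + 1) := by
  induction m, hm using Nat.le_induction with
  | base => norm_num
  | succ m hm ih =>
    refine ih.trans ?_
    have h := NA_step m hm
    push_cast
    have e : (m : ℝ) + 1 + 1 = m + 2 := by ring
    rw [e]
    exact h

private theorem NA_quarter (k : ℕ) (hk : 2 ≤ k) : (1 / 4 : ℝ) ≤ (1 - 1 / (k : ℝ)) ^ k := by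
  obtain ⟨m, rfl⟩ : ∃ m, k = m + 1 := ⟨k - 1, by omega⟩
  have h := NA_one m (by omega)
  have hm0 : (0 : ℝ) < (m : ℝ) + 1 := by positivity
  have e : (1 : ℝ) - 1 / ((m + 1 : ℕ) : ℝ) = (m : ℝ) / (m + 1) := by
    push_cast
    field_simp
    ring
  rw [e]
  exact h

private theorem NA_geom (a : ℝ) (k : ℕ) :
    1 - (1 - a) ^ k = a * ∑ i ∈ range k, (1 - a) ^ i := by
  have h := mul_geom_sum (1 - a) k
  linarith

private theorem NA_cross (k : ℕ) (hk : 2 ≤ k) (a b : ℝ) (ha : 0 < a) (hab : a < b) (hb : b ≤ 1) :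
    a ^ k * (1 - (1 - b) ^ k) < b ^ k * (1 - (1 - a) ^ k) := by
  obtain ⟨m, rfl⟩ : ∃ m, k = m + 1 := ⟨k - 1, by omega⟩
  rw [NA_geom a, NA_geom b]
  have hS : ∑ i ∈ range (m + 1), (1 - b) ^ i ≤ ∑ i ∈ range (m + 1), (1 - a) ^ i :=
    Finset.sum_le_sum fun i _ => pow_le_pow_left₀ (by linarith) (by linarith) i
  have hS0 : 0 < ∑ i ∈ range (m + 1), (1 - b) ^ i := by
    rw [Finset.sum_range_succ']
    have : 0 ≤ ∑ i ∈ range m, (1 - b) ^ (i + 1) :=
      Finset.sum_nonneg fun i _ => pow_nonneg (by linarith) _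
    simp only [pow_zero]
    linarith
  have hp : a ^ m < b ^ m := pow_lt_pow_left₀ hab ha.le (by omega)
  have hb0 : 0 < b := ha.trans hab
  have h1 : a ^ m * ∑ i ∈ range (m + 1), (1 - b) ^ i <
      b ^ m * ∑ i ∈ range (m + 1), (1 - a) ^ i :=
    calc a ^ m * ∑ i ∈ range (m + 1), (1 - b) ^ i
        < b ^ m * ∑ i ∈ range (m + 1), (1 - b) ^ i := mul_lt_mul_of_pos_right hp hS0
      _ ≤ b ^ m * ∑ i ∈ range (m + 1), (1 - a) ^ i :=
        mul_le_mul_of_nonneg_left hS (by positivity)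
  have h2 := mul_lt_mul_of_pos_left h1 (mul_pos ha hb0)
  calc a ^ (m + 1) * (b * ∑ i ∈ range (m + 1), (1 - b) ^ i)
      = a * b * (a ^ m * ∑ i ∈ range (m + 1), (1 - b) ^ i) := by ring
    _ < a * b * (b ^ m * ∑ i ∈ range (m + 1), (1 - a) ^ i) := h2
    _ = b ^ (m + 1) * (a * ∑ i ∈ range (m + 1), (1 - a) ^ i) := by ring

theorem hNA : StNA := by
  refine ⟨NA_quarter, ?_, ?_, ?_⟩
  · intro k c P f a hcr ha ha1 hS
    by_contra hc
    push Not at hc
    have hk0 : (2 : ℝ) ≤ k := by exact_mod_cast hcr.hk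
    have hc0 : 0 < c := by have := hcr.hc; linarith
    have hb1 : 1 / c ≤ 1 := by
      rw [div_le_one hc0]
      have := hcr.hc
      linarith
    have h := NA_cross k hcr.hk a (1 / c) ha hc hb1
    have e1 : 1 - (1 - 1 / c) ^ k = P := by
      have : (1 : ℝ) - 1 / c = (c - 1) / c := by field_simp
      rw [this, ← hcr.hfc]
      have := hcr.hPf
      linarith
    rw [e1] at h
    have h2 : (1 / c) ^ k * (1 - (1 - a) ^ k) ≤ (1 / c) ^ k * (k * a) ^ k :=
      mul_le_mul_of_nonneg_left hS (by positivity)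
    have e2 : (1 / c) ^ k * (k * a) ^ k = a ^ k * P := by
      rw [hcr.hPc, ← mul_pow, ← mul_pow]
      congr 1
      ring
    rw [e2] at h2
    linarith
  · intro k n s hk hs hn hle
    by_contra hc
    push Not at hc
    have hk0 : (2 : ℝ) ≤ k := by exact_mod_cast hk
    have hs0 : (1 : ℝ) ≤ s := by exact_mod_cast hs
    have hn' : (k : ℝ) * s ≤ n := by exact_mod_cast hn
    have hn0 : (0 : ℝ) < n := by nlinarith
    have hc' : (4 : ℝ) * n < (4 * k + 1) * s := by exact_mod_cast hc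
    have h1 : 1 - 1 / (4 * (k : ℝ) + 1) ≤ (k : ℝ) * s / n := by
      rw [le_div_iff₀ hn0]
      have e : (1 - 1 / (4 * (k : ℝ) + 1)) * n = 4 * k * n / (4 * k + 1) := by
        field_simp
        ring
      rw [e, div_le_iff₀ (by positivity)]
      nlinarith
    have hpos : (0 : ℝ) ≤ 1 - 1 / (4 * (k : ℝ) + 1) := by
      rw [sub_nonneg, div_le_one (by positivity)]
      linarith
    have h2 : (1 - 1 / (4 * (k : ℝ) + 1)) ^ k ≤ ((k : ℝ) * s / n) ^ k :=
      pow_le_pow_left₀ hpos h1 k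
    have h3 := one_add_mul_le_pow (a := -(1 / (4 * (k : ℝ) + 1)))
      (by
        have : 1 / (4 * (k : ℝ) + 1) ≤ 1 := by linarith
        linarith) k
    have h4 : (3 / 4 : ℝ) < 1 + (k : ℝ) * -(1 / (4 * (k : ℝ) + 1)) := by
      have : (k : ℝ) * (1 / (4 * (k : ℝ) + 1)) < 1 / 4 := by
        rw [mul_one_div, div_lt_iff₀ (by positivity)]
        linarith
      linarith
    have e5 : (1 : ℝ) + -(1 / (4 * (k : ℝ) + 1)) = 1 - 1 / (4 * (k : ℝ) + 1) := by ring
    rw [e5] at h3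
    have h6 : (1 - 1 / (k : ℝ)) ^ k ≤ (1 - (s : ℝ) / n) ^ k := by
      apply pow_le_pow_left₀
      · rw [sub_nonneg, div_le_one (by linarith)]
        linarith
      · have : (s : ℝ) / n ≤ 1 / k := by
          rw [div_le_div_iff₀ hn0 (by linarith)]
          linarith
        linarith
    have h7 := NA_quarter k hk
    linarith
  · intro k β hk hβ h
    by_contra hc
    push Not at hc
    have hk0 : (2 : ℝ) ≤ k := by exact_mod_cast hk
    have h1 : (1 : ℝ) ≤ β ^ (k - 1) := one_le_pow₀ hβ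
    have h2 : (3 / 4 : ℝ) < ((k : ℝ) - 1) * (β - 1) := by nlinarith
    nlinarith

end Pool.Agent.Helper28.OT
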