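import Pool.Agent.Helper73.OT.PSys
import Pool.Agent.Helper40.OT.PE

/-!
# MP_2857a5_co : module RO (routing), from the statement of the block theorem
-/

set_option autoImplicit false

open Finset
open scoped Classical

namespace OT

noncomputable section

/-- Chaining of the blocks. -/
theorem routing_chain {V : Type} [Fintype V] {D : V → V → Prop} {ε κ : ℝ} {B : ℕ} {m : ℕ}
    {L : Type} [Fintype L]
    (hblock : ∀ W : ℕ → Finset V,
      (∀ i ≤ 9, (W i).card = m ∧ Sample D ε (ε / 80) (W i)) → ∀ b : ℕ → Bool,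
      ∀ h : L → V, Function.Injective h → (∀ l, h l ∈ W 0) →
      ∃ g : L → V, Function.Injective g ∧ (∀ l, g l ∈ W 9) ∧
        ∀ τ : Equiv.Perm L, (∀ l, τ (τ l) = l) →
          ((univ.filter fun l => τ l ≠ l).card : ℝ) ≤ κ * (m : ℝ) →
          ∃ p : L → ℕ → V, PSys D 9 b W p ∧ (∀ l, p l 0 = h l) ∧ ∀ l, p l 9 = g (τ l))
    (W : ℕ → Finset V)
    (hW : ∀ i ≤ 9 * B, (W i).card = m ∧ Sample D ε (ε / 80) (W i))
    (b : ℕ → Bool) (h : L → V)
    (hh : Function.Injective h) (h0 : ∀ l, h l ∈ W 0) (t : ℕ) (ht : t ≤ B) :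
    ∃ g : L → V, Function.Injective g ∧ (∀ l, g l ∈ W (9 * t)) ∧
      ∀ l : List (Equiv.Perm L), l.length = t →
        (∀ σ ∈ l, (∀ x, σ (σ x) = x) ∧
          ((univ.filter fun x => σ x ≠ x).card : ℝ) ≤ κ * (m : ℝ)) →
        ∃ p : L → ℕ → V, PSys D (9 * t) b W p ∧ (∀ x, p x 0 = h x) ∧
          ∀ x, p x (9 * t) = g (l.prod x) := by
  induction t with
  | zero =>
    refine ⟨h, hh, by simpa using h0, ?_⟩
    intro l hl _
    have hnil : l = [] := List.length_eq_zero_iff.mp hl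
    subst hnil
    refine ⟨fun x _ => h x, ⟨?_, ?_, ?_⟩, fun x => rfl, fun x => by simp⟩
    · intro x i hi
      have : i = 0 := by omega
      subst this
      exact h0 x
    · intro i _
      exact hh
    · intro x i hi
      omega
  | succ t ih =>
    obtain ⟨g, hg, hgW, hgp⟩ := ih (by omega)
    obtain ⟨g', hg', hgW', hgp'⟩ := hblock (fun i => W (9 * t + i))
      (fun i hi => hW (9 * t + i) (by omega)) (fun i => b (9 * t + i)) g hg
      (by intro l; simpa using hgW l)
    refine ⟨g', hg', ?_, ?_⟩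
    · intro l
      have := hgW' l
      have he : 9 * (t + 1) = 9 * t + 9 := by ring
      rw [he]
      exact this
    intro l hl hσ
    obtain ⟨σ, l', rfl⟩ : ∃ σ l', l = σ :: l' := by
      cases l with
      | nil => simp at hl
      | cons σ l' => exact ⟨σ, l', rfl⟩
    have hl' : l'.length = t := by simpa using hl
    obtain ⟨p, hp, hp0, hp9⟩ := hgp l' hl' (fun σ' h' => hσ σ' (List.mem_cons_of_mem _ h'))
    obtain ⟨p', hp', hp0', hp9'⟩ := hgp' σ (hσ σ List.mem_cons_self).1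
      (hσ σ List.mem_cons_self).2
    obtain ⟨hp1, hp2, hp3⟩ := hp
    obtain ⟨hq1, hq2, hq3⟩ := hp'
    set π := l'.prod with hπ
    have hjoin : ∀ x, p x (9 * t) = p' (π x) 0 := by
      intro x
      rw [hp9, hp0']
    refine ⟨fun x i => if i ≤ 9 * t then p x i else p' (π x) (i - 9 * t), ⟨?_, ?_, ?_⟩, ?_, ?_⟩
    · intro x i hi
      by_cases hit : i ≤ 9 * t
      · simp only [hit, if_true]
        exact hp1 x i hit
      · simp only [hit, if_false]
        have := hq1 (π x) (i - 9 * t) (by omega)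
        have he : 9 * t + (i - 9 * t) = i := by omega
        simpa [he] using this
    · intro i hi
      by_cases hit : i ≤ 9 * t
      · simp only [hit, if_true]
        exact hp2 i hit
      · simp only [hit, if_false]
        exact (hq2 (i - 9 * t) (by omega)).comp π.injective
    · intro x i hi
      by_cases hit : i + 1 ≤ 9 * t
      · have hit' : i ≤ 9 * t := by omega
        simp only [hit, hit', if_true]
        exact hp3 x i (by omega)
      · by_cases hit' : i ≤ 9 * t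
        · have hi' : i = 9 * t := by omega
          subst hi'
          simp only [le_refl, if_true, hit, if_false]
          rw [hjoin x]
          have := hq3 (π x) 0 (by omega)
          have he : 9 * t + 1 - 9 * t = 0 + 1 := by omega
          rw [he]
          simpa using this
        · simp only [hit, hit', if_false]
          have := hq3 (π x) (i - 9 * t) (by omega)
          have he : 9 * t + (i - 9 * t) = i := by omega
          have he2 : i + 1 - 9 * t = i - 9 * t + 1 := by omega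
          rw [he2]
          simpa [he] using this
    · intro x
      simp only [Nat.zero_le, if_true]
      exact hp0 x
    · intro x
      have hnot : ¬ (9 * (t + 1) ≤ 9 * t) := by omega
      simp only [hnot, if_false]
      have he : 9 * (t + 1) - 9 * t = 9 := by omega
      rw [he, hp9', List.prod_cons, Equiv.Perm.mul_apply]

/-- The conclusion of the block theorem. -/
def BlockStatement (ε : ℝ) : Prop := ∃ κ : ℝ, 0 < κ ∧ ∀ θ : ℝ, 0 < θ →
    ∃ N₀ : ℕ, ∀ (V : Type) [Fintype V], N₀ ≤ Fintype.card V → ∀ D : V → V → Prop, Host D ε →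
    ∀ (W : ℕ → Finset V) (m : ℕ), (∀ i ≤ 9, (W i).card = m ∧ Sample D ε (ε / 80) (W i)) →
    θ * (Fintype.card V : ℝ) ≤ (m : ℝ) → ∀ b : ℕ → Bool,
    ∀ (L : Type) [Fintype L], Fintype.card L = m → ∀ h : L → V, Function.Injective h →
    (∀ l, h l ∈ W 0) →
    ∃ g : L → V, Function.Injective g ∧ (∀ l, g l ∈ W 9) ∧
      ∀ τ : Equiv.Perm L, (∀ l, τ (τ l) = l) →
        ((univ.filter fun l => τ l ≠ l).card : ℝ) ≤ κ * (m : ℝ) →
        ∃ p : L → ℕ → V, PSys D 9 b W p ∧ (∀ l, p l 0 = h l) ∧ ∀ l, p l 9 = g (τ l)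

theorem routing_of_block (ε : ℝ) (hbl : BlockStatement ε) :
    ∃ B : ℕ, 0 < B ∧ ∀ θ : ℝ, 0 < θ →
    ∃ N₀ : ℕ, ∀ (V : Type) [Fintype V], N₀ ≤ Fintype.card V → ∀ D : V → V → Prop, Host D ε →
    ∀ (W : ℕ → Finset V) (m : ℕ), (∀ i ≤ 9 * B, (W i).card = m ∧ Sample D ε (ε / 80) (W i)) →
    θ * (Fintype.card V : ℝ) ≤ (m : ℝ) → ∀ b : ℕ → Bool,
    ∀ (L : Type) [Fintype L], Fintype.card L = m → ∀ h e : L → V, Function.Injective h →
    Function.Injective e → (∀ l, h l ∈ W 0) → (∀ l, e l ∈ W (9 * B)) →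
    ∃ p : L → ℕ → V, PSys D (9 * B) b W p ∧ (∀ l, p l 0 = h l) ∧ ∀ l, p l (9 * B) = e l := by
  obtain ⟨κ, hκ, hblock⟩ := hbl
  set B' : ℕ := ⌈4 / κ⌉₊ with hB'
  have hB'pos : 0 < B' := Nat.ceil_pos.mpr (by positivity)
  refine ⟨2 * B', by omega, ?_⟩
  intro θ hθ
  obtain ⟨N₀, hN₀⟩ := hblock θ hθ
  refine ⟨max N₀ ⌈4 / (κ * θ)⌉₊, ?_⟩
  intro V _ hV D hD W m hW hm b L _ hL h e hh he h0 heW
  have hVN : N₀ ≤ Fintype.card V := le_trans (le_max_left _ _) hV
  have hV2 : 4 / (κ * θ) ≤ (Fintype.card V : ℝ) := by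
    have h1 : ⌈4 / (κ * θ)⌉₊ ≤ Fintype.card V := le_trans (le_max_right _ _) hV
    exact le_trans (Nat.le_ceil _) (by exact_mod_cast h1)
  have hκm : 4 ≤ κ * (m : ℝ) := by
    have h1 : 4 ≤ (Fintype.card V : ℝ) * (κ * θ) := by
      rwa [div_le_iff₀ (by positivity)] at hV2
    nlinarith
  have hm0 : (0 : ℝ) ≤ m := Nat.cast_nonneg m
  set k : ℕ := ⌊κ * (m : ℝ) / 2⌋₊ with hk
  have hk1 : (k : ℝ) ≤ κ * (m : ℝ) / 2 := Nat.floor_le (by positivity)
  have hk2 : κ * (m : ℝ) / 2 < (k : ℝ) + 1 := Nat.lt_floor_add_one _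
  have hk3 : κ * (m : ℝ) / 4 ≤ (k : ℝ) := by linarith
  have hkpos : 1 ≤ k := by
    have : (1 : ℝ) ≤ k := by linarith
    exact_mod_cast this
  have hkB : Fintype.card L ≤ k * B' := by
    have h1 : 4 / κ ≤ (B' : ℝ) := Nat.le_ceil _
    have h2 : (m : ℝ) ≤ (k : ℝ) * B' := by
      have h3 : (m : ℝ) = (κ * (m : ℝ) / 4) * (4 / κ) := by field_simp
      calc (m : ℝ) = (κ * (m : ℝ) / 4) * (4 / κ) := h3
        _ ≤ (k : ℝ) * B' := mul_le_mul hk3 h1 (by positivity) (by positivity)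
    rw [hL]
    exact_mod_cast h2
  obtain ⟨g, hg, hgW, hgp⟩ := routing_chain (κ := κ) (ε := ε) (B := 2 * B') (D := D)
    (fun W' hW' b' h' hh' h0' => hN₀ V hVN D hD W' m hW' hm b' L hL h' hh' h0')
    W hW b h hh h0 (2 * B') le_rfl
  -- the permutation to be realised
  have hWc : (W (9 * (2 * B'))).card = m := (hW _ le_rfl).1
  have himg : univ.image g = W (9 * (2 * B')) := by
    apply Finset.eq_of_subset_of_card_le
    · intro v hv
      obtain ⟨l, -, rfl⟩ := Finset.mem_image.mp hv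
      exact hgW l
    · rw [Finset.card_image_of_injective _ hg, Finset.card_univ, hL, hWc]
  have hτ : ∀ l, ∃ l', g l' = e l := by
    intro l
    have h1 : e l ∈ univ.image g := by
      rw [himg]
      exact heW l
    obtain ⟨l', -, hl'⟩ := Finset.mem_image.mp h1
    exact ⟨l', hl'⟩
  choose τ₀ hτ₀ using hτ
  have hinj : Function.Injective τ₀ := by
    intro x y hxy
    apply he
    rw [← hτ₀ x, ← hτ₀ y, hxy]
  have hbij : Function.Bijective τ₀ := Finite.injective_iff_bijective.mp hinj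
  set τ : Equiv.Perm L := Equiv.ofBijective τ₀ hbij with hτdef
  have hτg : ∀ l, g (τ l) = e l := fun l => hτ₀ l
  obtain ⟨l, hl, hlσ, hprod⟩ := perm_decomp k B' hkpos hkB τ
  obtain ⟨p, hp, hp0, hp9⟩ := hgp l hl (fun σ hσ => ⟨(hlσ σ hσ).1, by
    have h1 : ((univ.filter fun x => σ x ≠ x).card : ℝ) ≤ ((2 * k : ℕ) : ℝ) := by
      exact_mod_cast (hlσ σ hσ).2
    push_cast at h1
    linarith⟩)
  refine ⟨p, hp, hp0, fun x => ?_⟩
  rw [hp9, hprod, hτg]

end

end OT
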